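import Pool.Agent.Lib.MP_8d4425_gt.PN.Main

/-!
# p-biharmonic hypersurfaces, and submanifolds of any codimension with parallel normalised mean
curvature vector, are minimal

Let `p ≥ 2` be a real number and `φ : U → ℝ^n` a smooth immersion of an open set `U ⊆ ℝ^m`, with
the induced metric `g`, which is p-biharmonic, i.e. a critical point of the p-bienergy `E_{2,p}`
for all smooth variations supported in compact sets.  Suppose that `n = m + 1`, or that the
normalised mean curvature vector `H / |H|` is parallel in the normal bundle where `H ≠ 0`.  Then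
the p-tension field `τ_p(φ) = m^(p/2) H` vanishes on `U`: the submanifold is p-harmonic, that is,
minimal.  There is no condition on `m` or `n`, and no completeness.  In codimension one
`H / |H|` is always parallel; for `p = 2` this case is Chen's biharmonic conjecture for
hypersurfaces of every dimension.  (An immersed submanifold is covered by such patches, and a
variation supported in a patch is a variation of the submanifold.)
-/

namespace Pool.Agent.Results.MP_8d4425_gt.HypersurfacesAndPnmc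

open scoped ContDiff

/-- Euclidean space `ℝ^m`. -/
abbrev E (m : ℕ) : Type := EuclideanSpace ℝ (Fin m)

/-- The `i`-th coordinate vector of `ℝ^m`. -/
noncomputable def coord {m : ℕ} (i : Fin m) : E m := EuclideanSpace.single i (1 : ℝ)

/-- The matrix `g_ij = ⟨∂_i φ, ∂_j φ⟩` of the metric `g` induced by `φ`. -/
noncomputable def metric {m n : ℕ} (φ : E m → E n) (x : E m) : Matrix (Fin m) (Fin m) ℝ :=
  Matrix.of fun i j => inner ℝ (fderiv ℝ φ x (coord i)) (fderiv ℝ φ x (coord j))

/-- The divergence with respect to `g` of the `ℝ^n`-valued 1-form `∑ θ_j dx_j`: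
`(det g)^(-1/2) ∑_i ∂_i ((det g)^(1/2) ∑_j g^ij θ_j)`. -/
noncomputable def divg {m n : ℕ} (φ : E m → E n) (θ : E m → Fin m → E n) (x : E m) : E n :=
  (Real.sqrt (metric φ x).det)⁻¹ •
    ∑ i, fderiv ℝ (fun y => Real.sqrt (metric φ y).det • ∑ j, (metric φ y)⁻¹ i j • θ y j) x
      (coord i)

/-- `|dψ|² = ∑ g^kl ⟨∂_k ψ, ∂_l ψ⟩`, the squared Hilbert-Schmidt norm for `g`. -/
noncomputable def normSq {m n : ℕ} (φ ψ : E m → E n) (x : E m) : ℝ :=
  ∑ k, ∑ l, (metric φ x)⁻¹ k l * inner ℝ (fderiv ℝ ψ x (coord k)) (fderiv ℝ ψ x (coord l))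

/-- The p-tension field `τ_p(ψ) = div (|dψ|^(p-2) dψ)` of the map `ψ : (U, g) → ℝ^n`. -/
noncomputable def tension {m n : ℕ} (p : ℝ) (φ ψ : E m → E n) (x : E m) : E n :=
  divg φ (fun y j => (normSq φ ψ y) ^ ((p - 2) / 2) • fderiv ℝ ψ y (coord j)) x

/-- The p-bienergy `E_{2,p}(ψ; D) = 1/2 ∫_D |τ_p(ψ)|² v_g` of the map `ψ : (U, g) → ℝ^n`. -/
noncomputable def bienergy {m n : ℕ} (p : ℝ) (φ ψ : E m → E n) (D : Set (E m)) : ℝ :=
  (1 / 2) * ∫ x in D, ‖tension p φ ψ x‖ ^ 2 * Real.sqrt (metric φ x).det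

/-- `φ : (U, g) → ℝ^n` is p-biharmonic: for every smooth variation `Φ_t` of `φ = Φ_0` which agrees
with `φ` outside of a compact set `D ⊆ U`, the derivative of `E_{2,p}(Φ_t; D)` at `t = 0` is 0. -/
def IsPBiharmonic {m n : ℕ} (p : ℝ) (U : Set (E m)) (φ : E m → E n) : Prop :=
  ∀ (D : Set (E m)) (Φ : ℝ → E m → E n), IsCompact D → D ⊆ U →
    ContDiffOn ℝ ∞ (Function.uncurry Φ) (Set.univ ×ˢ U) → (∀ x ∈ U, Φ 0 x = φ x) →
    (∀ t, ∀ x ∈ U \ D, Φ t x = φ x) → HasDerivAt (fun t => bienergy p φ (Φ t) D) 0 0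

/-- Parallel normalised mean curvature vector: at the points of `U` where `τ_p(φ) = m^(p/2) H` is
not zero, every derivative of `H / |H| = τ_p(φ) / |τ_p(φ)|` is tangent to the submanifold, i.e.
`H / |H|` is parallel in the normal bundle.  (No condition at the zeros of `H`.) -/
def IsPNMC {m n : ℕ} (p : ℝ) (U : Set (E m)) (φ : E m → E n) : Prop :=
  ∀ x ∈ U, tension p φ φ x ≠ 0 → ∀ v : E m, ∃ u : E m,
    fderiv ℝ (fun y => ‖tension p φ φ y‖⁻¹ • tension p φ φ y) x v = fderiv ℝ φ x u

/-- A p-biharmonic submanifold of Euclidean space, `p ≥ 2`, which is a hypersurface or has parallel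
normalised mean curvature vector, is p-harmonic (minimal). -/
theorem result (m n : ℕ) (p : ℝ) (hp : 2 ≤ p) (U : Set (E m)) (φ : E m → E n)
    (hU : IsOpen U) (hφ : ContDiffOn ℝ ∞ φ U)
    (himm : ∀ x ∈ U, Function.Injective (fderiv ℝ φ x)) (hbih : IsPBiharmonic p U φ)
    (hN : n = m + 1 ∨ IsPNMC p U φ) :
    ∀ x ∈ U, tension p φ φ x = 0 :=
  PBN.final_statement m n p hp U φ ⟨hU, hφ, himm⟩ hbih hN

end Pool.Agent.Results.MP_8d4425_gt.HypersurfacesAndPnmc
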